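import Mathlib

set_option autoImplicit false

/-!
# Combinatorial part: random digits with few cells on every tube
-/

namespace Pool.Agent.U139.TB

open Finset

open scoped Classical in
/-- the lattice point `z` is near the line in the direction of the coordinate `i` -/
def Hit {k : ℕ} (i : Fin (k + 1)) (a β : Fin (k + 1) → ℝ) (C : ℝ) (z : Fin (k + 1) → ℕ) : Prop :=
  ∀ j, j ≠ i → |(z j : ℝ) - a j - β j * z i| ≤ C

/-- the indices of the cells of side `1 / R` of the unit cube of dimension `k` -/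
def Cell (k R : ℕ) : Finset (Fin k → ℕ) := Fintype.piFinset fun _ => range R

theorem mem_Cell {k R : ℕ} (c : Fin k → ℕ) : c ∈ Cell k R ↔ ∀ j, c j < R := by
  simp [Cell, Fintype.mem_piFinset]

theorem card_Cell (k R : ℕ) : (Cell k R).card = R ^ k := by
  simp [Cell, Fintype.card_piFinset]

/-- the parent cell -/
def par {k : ℕ} (M : ℕ) (c : Fin k → ℕ) : Fin k → ℕ := fun j => c j / M

open scoped Classical in
/-- the cells of the graph of `g` near the line -/
noncomputable def HitSet {k : ℕ} (R : ℕ) (g : (Fin k → ℕ) → ℕ) (i : Fin (k + 1))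
    (a β : Fin (k + 1) → ℝ) (C : ℝ) : Finset (Fin k → ℕ) :=
  (Cell k R).filter fun c => Hit i a β C (Fin.cons (g c) c)

theorem mem_HitSet {k : ℕ} {R : ℕ} {g : (Fin k → ℕ) → ℕ} {i : Fin (k + 1)}
    {a β : Fin (k + 1) → ℝ} {C : ℝ} {c : Fin k → ℕ} : c ∈ HitSet R g i a β C ↔
    c ∈ Cell k R ∧ Hit i a β C (Fin.cons (g c) c) := by
  simp [HitSet]

/-- `g` has its values below `R` and at most `A` cells of its graph are near any line -/
def Good (k R A : ℕ) (g : (Fin k → ℕ) → ℕ) : Prop :=
  (∀ c ∈ Cell k R, g c < R) ∧ ∀ (i : Fin (k + 1)) (a β : Fin (k + 1) → ℝ), (∀ j, |β j| ≤ 1) →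
    (HitSet R g i a β 6).card ≤ A

theorem hit_par {k : ℕ} {i : Fin (k + 1)} {a β : Fin (k + 1) → ℝ} {M : ℕ} (hM : 2 ≤ M)
    (hβ : ∀ j, |β j| ≤ 1) {z e : Fin (k + 1) → ℕ} (he : ∀ j, e j < M)
    (h : Hit i a β 8 fun j => M * z j + e j) : Hit i (fun j => a j / M) β 6 z := by
  intro j hj
  have h1 := h j hj
  have hM' : (2 : ℝ) ≤ M := by exact_mod_cast hM
  have hM0 : (0 : ℝ) < M := by linarith
  have hej : ((e j : ℕ) : ℝ) ≤ M := by exact_mod_cast (he j).le
  have hei : ((e i : ℕ) : ℝ) ≤ M := by exact_mod_cast (he i).le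
  have hej0 : (0 : ℝ) ≤ e j := Nat.cast_nonneg _
  have hei0 : (0 : ℝ) ≤ e i := Nat.cast_nonneg _
  have hb : |β j * e i| ≤ M := by
    rw [abs_mul]
    calc |β j| * |(e i : ℝ)| ≤ 1 * M := by
          apply mul_le_mul (hβ j) _ (abs_nonneg _) zero_le_one
          rw [abs_of_nonneg hei0]; exact hei
      _ = M := one_mul _
  have hkey : |(M : ℝ) * ((z j : ℝ) - a j / M - β j * z i)| ≤ 8 + 2 * M := by
    have e1 : (M : ℝ) * ((z j : ℝ) - a j / M - β j * z i) =
        ((((M * z j + e j : ℕ) : ℝ)) - a j - β j * ((M * z i + e i : ℕ) : ℝ)) - e j + β j * e i := by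
      push_cast
      field_simp
      ring
    rw [e1]
    calc |((((M * z j + e j : ℕ) : ℝ)) - a j - β j * ((M * z i + e i : ℕ) : ℝ)) - e j + β j * e i|
        ≤ |((((M * z j + e j : ℕ) : ℝ)) - a j - β j * ((M * z i + e i : ℕ) : ℝ)) - e j| +
          |β j * e i| := abs_add_le _ _
      _ ≤ (|(((M * z j + e j : ℕ) : ℝ)) - a j - β j * ((M * z i + e i : ℕ) : ℝ)| + |(e j : ℝ)|) +
          |β j * e i| := by gcongr; exact abs_sub _ _
      _ ≤ (8 + M) + M := by
          gcongr
          rw [abs_of_nonneg hej0]; exact hej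
      _ = 8 + 2 * M := by ring
  rw [abs_mul, abs_of_pos hM0] at hkey
  by_contra hcon
  push Not at hcon
  have : (M : ℝ) * 6 < M * |(z j : ℝ) - a j / M - β j * z i| := by
    apply mul_lt_mul_of_pos_left hcon hM0
  linarith

/-- the number of the children near a line -/
theorem card_children {k : ℕ} (i : Fin (k + 1)) (a β : Fin (k + 1) → ℝ) (M : ℕ)
    (z : Fin (k + 1) → ℕ) (S : Finset (Fin (k + 1) → ℕ)) (hS : ∀ e ∈ S, (∀ j, e j < M) ∧
      Hit i a β 8 fun j => M * z j + e j) : S.card ≤ M * 17 ^ k := by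
  classical
  let φ : (Fin (k + 1) → ℕ) → (Fin (k + 1) → ℤ) := fun e j =>
    if j = i then (e j : ℤ) else ⌊((M * z j + e j : ℕ) : ℝ) - a j - β j * ((M * z i + e i : ℕ) : ℝ)⌋
  let t : Fin (k + 1) → Finset ℤ := fun j => if j = i then Finset.Ico 0 (M : ℤ) else Finset.Icc (-8) 8
  have hcard : (Fintype.piFinset t).card = M * 17 ^ k := by
    rw [Fintype.card_piFinset, Fin.prod_univ_succAbove _ i]
    have h1 : (t i).card = M := by simp [t]
    have h2 : ∀ j : Fin k, (t (i.succAbove j)).card = 17 := by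
      intro j
      simp [t, Fin.succAbove_ne i j]
    rw [h1]
    simp [h2]
  rw [← hcard]
  apply Finset.card_le_card_of_injOn φ
  · intro e he
    obtain ⟨h1, h2⟩ := hS e he
    simp only [Finset.mem_coe, Fintype.mem_piFinset, t, φ]
    intro j
    by_cases hj : j = i
    · simp only [hj, if_true, Finset.mem_Ico]
      exact ⟨by positivity, by exact_mod_cast h1 i⟩
    · simp only [hj, if_false, Finset.mem_Icc]
      have h3 := abs_le.1 (h2 j hj)
      constructor
      · apply Int.le_floor.2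
        push_cast
        push_cast at h3
        linarith [h3.1]
      · have : ⌊((M * z j + e j : ℕ) : ℝ) - a j - β j * ((M * z i + e i : ℕ) : ℝ)⌋ ≤ ⌊(8 : ℝ)⌋ :=
          Int.floor_le_floor h3.2
        simpa using this
  · intro e he e' he' h
    have hi : e i = e' i := by
      have := congrFun h i
      simp only [φ, if_true] at this
      exact_mod_cast this
    funext j
    by_cases hj : j = i
    · rw [hj]; exact hi
    · have h1 := congrFun h j
      simp only [φ, hj, if_false] at h1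
      rw [← hi] at h1
      have h2 := Int.abs_sub_lt_one_of_floor_eq_floor h1
      have h3 : |((e j : ℤ) : ℝ) - ((e' j : ℤ) : ℝ)| < 1 := by
        refine lt_of_eq_of_lt ?_ h2
        congr 1
        push_cast
        ring
      have h4 : |(e j : ℤ) - (e' j : ℤ)| < 1 := by exact_mod_cast h3
      have h5 : (e j : ℤ) - (e' j : ℤ) = 0 := Int.abs_lt_one_iff.1 h4
      omega

end Pool.Agent.U139.TB
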