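import Pool.Agent.U139.TB.Seq

set_option autoImplicit false

/-!
# The graph and its Hausdorff measure
-/

namespace Pool.Agent.U139.TB

open Finset MeasureTheory MeasureTheory.Measure Filter Topology
open scoped ENNReal NNReal

variable {k : ℕ}

/-- the cell of a point -/
noncomputable def cell (R : ℕ) (x : Fin k → ℝ) : Fin k → ℕ := fun j => ⌊(R : ℝ) * x j⌋₊

theorem cell_mem {R : ℕ} (hR : 0 < R) {x : Fin k → ℝ} (hx : ∀ j, x j ∈ Set.Ico (0 : ℝ) 1) :
    cell R x ∈ Cell k R := by
  rw [mem_Cell]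
  intro j
  have hR0 : (0 : ℝ) < R := by exact_mod_cast hR
  unfold cell
  rw [Nat.floor_lt (mul_nonneg hR0.le (hx j).1)]
  calc (R : ℝ) * x j < R * 1 := by
        apply mul_lt_mul_of_pos_left (hx j).2 hR0
    _ = R := mul_one _

theorem cell_div (R Q : ℕ) (hQ : 0 < Q) (x : Fin k → ℝ) :
    par Q (cell (R * Q) x) = cell R x := by
  funext j
  unfold par cell
  rw [← Nat.floor_div_natCast]
  congr 1
  have : (Q : ℝ) ≠ 0 := by exact_mod_cast hQ.ne'
  push_cast
  field_simp

theorem cell_le {R : ℕ} {x : Fin k → ℝ} (hx : ∀ j, x j ∈ Set.Ico (0 : ℝ) 1) (j : Fin k) :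
    (cell R x j : ℝ) ≤ R * x j := Nat.floor_le (mul_nonneg (Nat.cast_nonneg _) (hx j).1)

theorem le_cell {R : ℕ} {x : Fin k → ℝ} (j : Fin k) :
    (R : ℝ) * x j ≤ cell R x j + 1 := (Nat.lt_floor_add_one _).le

/-- a coherent sequence of generations -/
structure Sys (k : ℕ) (g : ℕ → (Fin k → ℕ) → ℕ) : Prop where
  good : ∀ n, Good k (RR k n) (BB k * KK k ^ n) (g n)
  comp : ∀ n, ∀ c ∈ Cell k (RR k (n + 1)), g (n + 1) c / MM k n = g n (par (MM k n) c)

variable {g : ℕ → (Fin k → ℕ) → ℕ}

/-- the lower approximations -/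
noncomputable def lo (g : ℕ → (Fin k → ℕ) → ℕ) (n : ℕ) (x : Fin k → ℝ) : ℝ :=
  (g n (cell (RR k n) x) : ℝ) / RR k n

/-- the function -/
noncomputable def ff (g : ℕ → (Fin k → ℕ) → ℕ) (x : Fin k → ℝ) : ℝ := ⨆ n, lo g n x

theorem RR_pos (k n : ℕ) : (0 : ℝ) < RR k n := by
  have := RR_ge k n
  have : 0 < RR k n := by omega
  exact_mod_cast this

theorem step_bounds (hg : Sys k g) (n : ℕ) {x : Fin k → ℝ} (hx : ∀ j, x j ∈ Set.Ico (0 : ℝ) 1) :
    lo g n x ≤ lo g (n + 1) x ∧
      lo g (n + 1) x + 1 / RR k (n + 1) ≤ lo g n x + 1 / RR k n := by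
  have hR := RR_pos k n
  have hR' := RR_pos k (n + 1)
  have hM : 0 < MM k n := by have := MM_ge k n; omega
  have hM0 : (0 : ℝ) < MM k n := by exact_mod_cast hM
  have hmem : cell (RR k (n + 1)) x ∈ Cell k (RR k (n + 1)) :=
    cell_mem (by have := RR_ge k (n + 1); omega) hx
  have h1 := hg.comp n _ hmem
  have h2 : par (MM k n) (cell (RR k (n + 1)) x) = cell (RR k n) x := by
    rw [RR_succ]; exact cell_div _ _ hM x
  rw [h2] at h1
  set a := g (n + 1) (cell (RR k (n + 1)) x) with ha
  set b := g n (cell (RR k n) x) with hb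
  have h3 : MM k n * b ≤ a := by rw [← h1]; exact Nat.mul_div_le _ _
  have h4 : a + 1 ≤ MM k n * (b + 1) := by
    rw [← h1]
    have := Nat.lt_mul_div_succ a hM
    exact this
  have h3' : (MM k n : ℝ) * b ≤ a := by exact_mod_cast h3
  have h4' : (a : ℝ) + 1 ≤ MM k n * (b + 1) := by exact_mod_cast h4
  have hRR : (RR k (n + 1) : ℝ) = RR k n * MM k n := by rw [RR_succ]; push_cast; ring
  constructor
  · show (b : ℝ) / RR k n ≤ (a : ℝ) / RR k (n + 1)
    rw [hRR, div_le_div_iff₀ hR (by positivity)]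
    nlinarith
  · show (a : ℝ) / RR k (n + 1) + 1 / RR k (n + 1) ≤ (b : ℝ) / RR k n + 1 / RR k n
    rw [← add_div, ← add_div, hRR, div_le_div_iff₀ (by positivity) hR]
    nlinarith

theorem lo_mono (hg : Sys k g) {x : Fin k → ℝ} (hx : ∀ j, x j ∈ Set.Ico (0 : ℝ) 1) :
    Monotone fun n => lo g n x :=
  monotone_nat_of_le_succ fun n => (step_bounds hg n hx).1

theorem hi_anti (hg : Sys k g) {x : Fin k → ℝ} (hx : ∀ j, x j ∈ Set.Ico (0 : ℝ) 1) :
    Antitone fun n => lo g n x + 1 / RR k n :=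
  antitone_nat_of_succ_le fun n => (step_bounds hg n hx).2

theorem lo_le_hi (hg : Sys k g) {x : Fin k → ℝ} (hx : ∀ j, x j ∈ Set.Ico (0 : ℝ) 1) (m n : ℕ) :
    lo g m x ≤ lo g n x + 1 / RR k n := by
  have h1 : lo g m x ≤ lo g (max m n) x := lo_mono hg hx (le_max_left _ _)
  have h2 : lo g (max m n) x + 1 / RR k (max m n) ≤ lo g n x + 1 / RR k n :=
    hi_anti hg hx (le_max_right _ _)
  have h3 : (0 : ℝ) ≤ 1 / RR k (max m n) := by have := RR_pos k (max m n); positivity
  linarith

theorem ff_bounds (hg : Sys k g) {x : Fin k → ℝ} (hx : ∀ j, x j ∈ Set.Ico (0 : ℝ) 1) (n : ℕ) :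
    (g n (cell (RR k n) x) : ℝ) ≤ RR k n * ff g x ∧
      RR k n * ff g x ≤ (g n (cell (RR k n) x) : ℝ) + 1 := by
  have hR := RR_pos k n
  have hbdd : BddAbove (Set.range fun m => lo g m x) :=
    ⟨lo g n x + 1 / RR k n, by rintro _ ⟨m, rfl⟩; exact lo_le_hi hg hx m n⟩
  have h1 : lo g n x ≤ ff g x := le_ciSup hbdd n
  have h2 : ff g x ≤ lo g n x + 1 / RR k n := ciSup_le fun m => lo_le_hi hg hx m n
  have e : lo g n x * RR k n = g n (cell (RR k n) x) := by
    unfold lo
    field_simp
  constructor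
  · calc (g n (cell (RR k n) x) : ℝ) = lo g n x * RR k n := e.symm
      _ ≤ ff g x * RR k n := by gcongr
      _ = _ := mul_comm _ _
  · calc RR k n * ff g x ≤ RR k n * (lo g n x + 1 / RR k n) := by gcongr
      _ = _ := by
        rw [mul_add, mul_one_div_cancel hR.ne', mul_comm, e]

/-- the graph -/
def GG (g : ℕ → (Fin k → ℕ) → ℕ) : Set (EuclideanSpace ℝ (Fin (k + 1))) :=
  {x | (∀ j : Fin k, x j.succ ∈ Set.Ico (0 : ℝ) 1) ∧ x 0 = ff g fun j => x j.succ}

/-- the cube of the point `z` of the grid -/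
def Cube (R : ℕ) (z : Fin (k + 1) → ℕ) : Set (EuclideanSpace ℝ (Fin (k + 1))) :=
  {x | ∀ j, (z j : ℝ) ≤ R * x j ∧ R * x j ≤ z j + 1}

/-- the first `k` coordinates -/
def tl (x : EuclideanSpace ℝ (Fin (k + 1))) : Fin k → ℝ := fun j => x j.succ

theorem mem_Cube (hg : Sys k g) {x : EuclideanSpace ℝ (Fin (k + 1))} (hx : x ∈ GG g) (n : ℕ) :
    x ∈ Cube (RR k n) (Fin.cons (g n (cell (RR k n) (tl x))) (cell (RR k n) (tl x))) := by
  obtain ⟨h1, h2⟩ := hx
  intro j
  refine Fin.cases ?_ (fun j => ?_) j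
  · simp only [Fin.cons_zero]
    rw [h2]
    exact ff_bounds hg h1 n
  · simp only [Fin.cons_succ]
    exact ⟨cell_le (x := tl x) h1 j, le_cell (x := tl x) j⟩

theorem diam_Cube (R : ℕ) (hR : 0 < R) (z : Fin (k + 1) → ℕ) :
    Metric.ediam (Cube R z) ≤ ENNReal.ofReal ((k + 1) / R) := by
  apply Metric.ediam_le
  intro x hx y hy
  rw [edist_dist]
  apply ENNReal.ofReal_le_ofReal
  have hR0 : (0 : ℝ) < R := by exact_mod_cast hR
  rw [EuclideanSpace.dist_eq]
  have h1 : ∀ j, dist (x j) (y j) ≤ 1 / R := by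
    intro j
    rw [Real.dist_eq, le_div_iff₀ hR0]
    have hxj := hx j
    have hyj := hy j
    calc |x j - y j| * R = |R * x j - R * y j| := by
          rw [← mul_sub, abs_mul, abs_of_pos hR0, mul_comm]
      _ ≤ 1 := by
          rw [abs_le]
          constructor <;> linarith [hxj.1, hxj.2, hyj.1, hyj.2]
  calc √(∑ i, dist (x i) (y i) ^ 2) ≤ √(∑ _i : Fin (k + 1), (1 / (R : ℝ)) ^ 2) := by
        apply Real.sqrt_le_sqrt
        apply Finset.sum_le_sum
        intro i _
        have := h1 i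
        gcongr
    _ = √((k + 1) * (1 / R) ^ 2) := by
        rw [Finset.sum_const, nsmul_eq_mul, Finset.card_univ, Fintype.card_fin]
        push_cast
        rfl
    _ ≤ √(((k + 1) / R) ^ 2) := by
        apply Real.sqrt_le_sqrt
        rw [div_pow, div_pow, mul_div_assoc']
        gcongr
        have : (0 : ℝ) ≤ k := Nat.cast_nonneg _
        nlinarith
    _ = (k + 1) / R := Real.sqrt_sq (by positivity)

theorem card_fiber (R Q : ℕ) (hQ : 0 < Q) (F : Finset (Fin k → ℕ)) :
    ((Cell k (R * Q)).filter fun c => par Q c ∈ F).card ≤ F.card * Q ^ k := by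
  classical
  have h1 : ((Cell k (R * Q)).filter fun c => par Q c ∈ F).card ≤
      ∑ c₀ ∈ F, (((Cell k (R * Q)).filter fun c => par Q c ∈ F).filter fun c => par Q c = c₀).card := by
    rw [← Finset.card_eq_sum_card_fiberwise]
    intro c hc
    exact (Finset.mem_filter.1 (Finset.mem_coe.1 hc)).2
  refine h1.trans ?_
  calc ∑ c₀ ∈ F, (((Cell k (R * Q)).filter fun c => par Q c ∈ F).filter fun c => par Q c = c₀).card
      ≤ ∑ _c₀ ∈ F, Q ^ k := by
        apply Finset.sum_le_sum
        intro c₀ _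
        calc (((Cell k (R * Q)).filter fun c => par Q c ∈ F).filter fun c => par Q c = c₀).card
            ≤ (Fintype.piFinset fun j => Finset.Ico (Q * c₀ j) (Q * c₀ j + Q)).card := by
              apply Finset.card_le_card
              intro c hc
              have hc1 : par Q c = c₀ := (Finset.mem_filter.1 hc).2
              rw [Fintype.mem_piFinset]
              intro j
              have : c j / Q = c₀ j := congrFun hc1 j
              rw [Finset.mem_Ico, ← this]
              have h2 := Nat.div_add_mod (c j) Q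
              have h3 := Nat.mod_lt (c j) hQ
              constructor
              · exact Nat.mul_div_le _ _
              · omega
          _ = Q ^ k := by simp [Fintype.card_piFinset]
    _ = F.card * Q ^ k := by rw [Finset.sum_const, smul_eq_mul]

theorem RR_dvd (k n p : ℕ) : ∃ Q, 0 < Q ∧ RR k (n + p) = RR k n * Q := by
  refine ⟨2 ^ (KK k ^ (n + p) - KK k ^ n), by positivity, ?_⟩
  unfold RR
  rw [← pow_add]
  congr 1
  have : KK k ^ n ≤ KK k ^ (n + p) :=
    Nat.pow_le_pow_right (by have := KK_ge k; omega) (Nat.le_add_right _ _)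
  omega

/-- **Upper bound for the Hausdorff measure.** -/
theorem measure_le (hg : Sys k g) (n : ℕ) (F : Finset (Fin k → ℕ))
    (S : Set (EuclideanSpace ℝ (Fin (k + 1)))) (hS : S ⊆ GG g)
    (hF : ∀ x ∈ S, cell (RR k n) (tl x) ∈ F) :
    μH[(k : ℝ)] S ≤ ENNReal.ofReal (F.card * ((k + 1) / RR k n) ^ k) := by
  classical
  choose Q hQ0 hQ using RR_dvd k n
  have hR := RR_pos k n
  have htend : Tendsto (fun p : ℕ => ENNReal.ofReal (((k : ℝ) + 1) / RR k (n + p))) atTop (𝓝 0) := by
    rw [← ENNReal.ofReal_zero]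
    apply ENNReal.tendsto_ofReal
    apply Tendsto.div_atTop tendsto_const_nhds
    have h1 : ∀ p : ℕ, (p : ℝ) ≤ RR k (n + p) := by
      intro p
      have : p ≤ RR k (n + p) := by
        unfold RR
        calc p ≤ n + p := Nat.le_add_left _ _
          _ ≤ KK k ^ (n + p) := (Nat.lt_pow_self (by have := KK_ge k; omega)).le
          _ ≤ 2 ^ (KK k ^ (n + p)) := Nat.lt_two_pow_self.le
      exact_mod_cast this
    exact tendsto_atTop_mono h1 tendsto_natCast_atTop_atTop
  let G : ℕ → Finset (Fin k → ℕ) := fun p => (Cell k (RR k n * Q p)).filter fun c => par (Q p) c ∈ F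
  have h := hausdorffMeasure_le_liminf_sum (ι := fun p => {c // c ∈ G p}) (k : ℝ) S
    (fun p => ENNReal.ofReal (((k : ℝ) + 1) / RR k (n + p))) htend
    (fun p c => Cube (RR k (n + p)) (Fin.cons (g (n + p) c.1) c.1))
    (Eventually.of_forall fun p c => diam_Cube _ (by have := RR_ge k (n + p); omega) _)
    (Eventually.of_forall fun p x hx => by
      have h1 := mem_Cube hg (hS hx) (n + p)
      have h2 : cell (RR k (n + p)) (tl x) ∈ G p := by
        apply Finset.mem_filter.2
        constructor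
        · rw [← hQ p]
          exact cell_mem (by have := RR_ge k (n + p); omega) (hS hx).1
        · rw [hQ p, cell_div _ _ (hQ0 p)]
          exact hF x hx
      exact Set.mem_iUnion.2 ⟨⟨_, h2⟩, h1⟩)
  refine h.trans ?_
  have hle : ∀ p, ∑ c : {c // c ∈ G p},
      Metric.ediam (Cube (RR k (n + p)) (Fin.cons (g (n + p) c.1) c.1 : Fin (k + 1) → ℕ)) ^ (k : ℝ) ≤
      ENNReal.ofReal (F.card * ((k + 1) / RR k n) ^ k) := by
    intro p
    have hQp : (0 : ℝ) < Q p := by exact_mod_cast hQ0 p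
    calc ∑ c : {c // c ∈ G p},
        Metric.ediam (Cube (RR k (n + p)) (Fin.cons (g (n + p) c.1) c.1 : Fin (k + 1) → ℕ)) ^ (k : ℝ)
        ≤ ∑ _c : {c // c ∈ G p}, ENNReal.ofReal ((k + 1) / RR k (n + p)) ^ (k : ℝ) := by
          apply Finset.sum_le_sum
          intro c _
          apply ENNReal.rpow_le_rpow _ (Nat.cast_nonneg k)
          exact diam_Cube _ (by have := RR_ge k (n + p); omega) _
      _ = (G p).card * ENNReal.ofReal ((k + 1) / RR k (n + p)) ^ (k : ℝ) := by
          rw [Finset.sum_const, nsmul_eq_mul, Finset.card_univ, Fintype.card_coe]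
      _ = ENNReal.ofReal ((G p).card * ((k + 1) / RR k (n + p)) ^ k) := by
          rw [ENNReal.rpow_natCast, ENNReal.ofReal_mul (by positivity), ENNReal.ofReal_natCast,
            ENNReal.ofReal_pow (by positivity)]
      _ ≤ ENNReal.ofReal (F.card * ((k + 1) / RR k n) ^ k) := by
          apply ENNReal.ofReal_le_ofReal
          have hc : ((G p).card : ℝ) ≤ F.card * (Q p : ℝ) ^ k := by
            exact_mod_cast card_fiber (RR k n) (Q p) (hQ0 p) F
          calc ((G p).card : ℝ) * ((k + 1) / RR k (n + p)) ^ k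
              ≤ (F.card * (Q p : ℝ) ^ k) * ((k + 1) / RR k (n + p)) ^ k := by gcongr
            _ = F.card * ((k + 1) / RR k n) ^ k := by
                rw [hQ p, mul_assoc, ← mul_pow]
                congr 2
                push_cast
                field_simp
  calc liminf _ atTop ≤ liminf (fun _ : ℕ => ENNReal.ofReal (F.card * ((k + 1) / RR k n) ^ k)) atTop :=
        liminf_le_liminf (Eventually.of_forall hle)
    _ = _ := liminf_const _

/-- **Lower bound.** -/
theorem measure_pos : 0 < μH[(k : ℝ)] (GG g) := by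
  have hL : LipschitzWith 1 (tl : EuclideanSpace ℝ (Fin (k + 1)) → (Fin k → ℝ)) := by
    apply LipschitzWith.of_dist_le_mul
    intro x y
    rw [NNReal.coe_one, one_mul, dist_pi_le_iff dist_nonneg]
    intro j
    rw [EuclideanSpace.dist_eq]
    apply Real.le_sqrt_of_sq_le
    exact Finset.single_le_sum (f := fun i => dist (x i) (y i) ^ 2) (fun i _ => by positivity)
      (Finset.mem_univ j.succ)
  have h1 := hL.hausdorffMeasure_image_le (d := (k : ℝ)) (Nat.cast_nonneg k) (GG g)
  rw [ENNReal.coe_one, ENNReal.one_rpow, one_mul] at h1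
  have h2 : tl '' (GG g) = Set.pi Set.univ fun _ : Fin k => Set.Ico (0 : ℝ) 1 := by
    ext x
    constructor
    · rintro ⟨y, hy, rfl⟩ j _
      exact hy.1 j
    · intro hx
      refine ⟨WithLp.toLp 2 (Fin.cons (ff g x) x), ⟨fun j => ?_, ?_⟩, ?_⟩
      · simpa using hx j (Set.mem_univ j)
      · simp
      · funext j
        simp [tl]
  have h3 : μH[(k : ℝ)] (Set.pi Set.univ fun _ : Fin k => Set.Ico (0 : ℝ) 1) = 1 := by
    have h4 := hausdorffMeasure_pi_real (ι := Fin k)
    rw [Fintype.card_fin] at h4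
    rw [h4, volume_pi_pi]
    simp
  rw [h2, h3] at h1
  exact lt_of_lt_of_le one_pos h1

theorem measurable_GG : MeasurableSet (GG g) := by
  have hc : ∀ n, Measurable fun x : Fin k → ℝ => lo g n x := by
    intro n
    have h1 : Measurable fun x : Fin k → ℝ => cell (RR k n) x := by
      apply measurable_pi_lambda
      intro j
      exact Nat.measurable_floor.comp ((measurable_pi_apply j).const_mul _)
    have h2 : Measurable fun c : Fin k → ℕ => (g n c : ℝ) := Measurable.of_discrete
    exact (h2.comp h1).div_const _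
  have hf : Measurable fun x : Fin k → ℝ => ff g x := by
    exact Measurable.iSup hc
  have ht : Measurable (tl : EuclideanSpace ℝ (Fin (k + 1)) → (Fin k → ℝ)) := by
    apply measurable_pi_lambda
    intro j
    exact (measurable_pi_apply (j.succ)).comp (WithLp.measurable_ofLp _ _)
  have h0 : Measurable fun x : EuclideanSpace ℝ (Fin (k + 1)) => x 0 :=
    (measurable_pi_apply (0 : Fin (k + 1))).comp (WithLp.measurable_ofLp _ _)
  have : GG g = (⋂ j : Fin k, {x | tl x j ∈ Set.Ico (0 : ℝ) 1}) ∩ {x | x 0 = ff g (tl x)} := by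
    ext x
    simp only [GG, Set.mem_inter_iff, Set.mem_iInter, Set.mem_ofPred_eq]
    rfl
  rw [this]
  refine MeasurableSet.inter (MeasurableSet.iInter fun j => ?_) ?_
  · exact ((measurable_pi_apply j).comp ht) measurableSet_Ico
  · exact measurableSet_eq_fun h0 (hf.comp ht)

end Pool.Agent.U139.TB
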