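import Pool.Agent.U139.TB.Step

set_option autoImplicit false

/-!
# The sequence of the generations
-/

namespace Pool.Agent.U139.TB

open Finset

/-- the exponent -/
def KK (k : ℕ) : ℕ := 4 * 17 ^ k

theorem KK_ge (k : ℕ) : 4 ≤ KK k := by
  have : 1 ≤ 17 ^ k := Nat.one_le_pow _ _ (by norm_num)
  unfold KK
  omega

/-- the number of the cells of one line in the generation `n` -/
def RR (k n : ℕ) : ℕ := 2 ^ (KK k ^ n)

/-- the branching number -/
def MM (k n : ℕ) : ℕ := 2 ^ (KK k ^ n * (KK k - 1))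

/-- the constant -/
def BB (k : ℕ) : ℕ := 2 * (13 * (k + 1) + 2 ^ k)

theorem RR_succ (k n : ℕ) : RR k (n + 1) = RR k n * MM k n := by
  have h := KK_ge k
  unfold RR MM
  rw [← pow_add]
  congr 1
  have : KK k ^ n + KK k ^ n * (KK k - 1) = KK k ^ n * (1 + (KK k - 1)) := by ring
  rw [this, pow_succ]
  congr 1
  omega

theorem KK_pow_pos (k n : ℕ) : 1 ≤ KK k ^ n := Nat.one_le_pow _ _ (by have := KK_ge k; omega)

theorem RR_ge (k n : ℕ) : 2 ≤ RR k n := by
  unfold RR
  calc 2 = 2 ^ 1 := rfl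
    _ ≤ _ := Nat.pow_le_pow_right (by norm_num) (KK_pow_pos k n)

theorem MM_ge (k n : ℕ) : 2 ≤ MM k n := by
  unfold MM
  have h := KK_ge k
  have h2 : 1 ≤ KK k ^ n * (KK k - 1) := Nat.mul_pos (KK_pow_pos k n) (by omega)
  calc 2 = 2 ^ 1 := rfl
    _ ≤ _ := Nat.pow_le_pow_right (by norm_num) h2

theorem exists_seq (k : ℕ) : ∃ g : ℕ → (Fin k → ℕ) → ℕ, ∀ n,
    Good k (RR k n) (BB k * KK k ^ n) (g n) ∧
    ∀ c ∈ Cell k (RR k (n + 1)), g (n + 1) c / MM k n = g n (par (MM k n) c) := by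
  classical
  have h0 : Good k (RR k 0) (BB k * KK k ^ 0) fun _ => 0 := by
    refine ⟨fun c _ => ?_, fun i a β _ => ?_⟩
    · have := RR_ge k 0
      show 0 < RR k 0
      omega
    · calc (HitSet (RR k 0) (fun _ => 0) i a β 6).card ≤ (Cell k (RR k 0)).card :=
            Finset.card_filter_le _ _
        _ = 2 ^ k := by rw [card_Cell]; simp [RR]
        _ ≤ BB k * KK k ^ 0 := by rw [pow_zero, mul_one]; unfold BB; omega
  have hstep : ∀ n (g : (Fin k → ℕ) → ℕ), Good k (RR k n) (BB k * KK k ^ n) g →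
      ∃ g', Good k (RR k (n + 1)) (BB k * KK k ^ (n + 1)) g' ∧
        ∀ c ∈ Cell k (RR k (n + 1)), g' c / MM k n = g (par (MM k n) c) := by
    intro n g hg
    rw [RR_succ]
    refine step k (RR k n) (MM k n) _ (13 * (k + 1) * KK k ^ (n + 1)) _ (by have := RR_ge k n; omega)
      (MM_ge k n) g hg ?_ ?_
    · rw [← RR_succ]
      unfold RR
      set m := KK k ^ (n + 1) with hm
      have hm1 : 1 ≤ m := KK_pow_pos k (n + 1)
      have h1 : 16 * 2 ^ m + 1 ≤ 2 ^ (6 * m) := by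
        calc 16 * 2 ^ m + 1 ≤ 2 ^ (m + 5) := by
              rw [pow_add]
              have : 1 ≤ 2 ^ m := Nat.one_le_two_pow
              omega
          _ ≤ 2 ^ (6 * m) := Nat.pow_le_pow_right (by norm_num) (by omega)
      have h2 : k + 1 ≤ 2 ^ ((k + 1) * m) := by
        calc k + 1 ≤ 2 ^ (k + 1) := Nat.lt_two_pow_self.le
          _ ≤ _ := Nat.pow_le_pow_right (by norm_num) (Nat.le_mul_of_pos_right _ hm1)
      calc (k + 1) * (16 * 2 ^ m + 1) ^ (2 * (k + 1))
          ≤ 2 ^ ((k + 1) * m) * (2 ^ (6 * m)) ^ (2 * (k + 1)) := by gcongr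
        _ = 2 ^ (13 * (k + 1) * m) := by
            rw [← pow_mul, ← pow_add]
            congr 1
            ring
    · have : KK k ^ (n + 1) = 2 * (2 * 17 ^ k * KK k ^ n) := by
        rw [pow_succ]
        unfold KK
        ring
      have e1 : 2 * (17 ^ k * (BB k * KK k ^ n)) = (13 * (k + 1) + 2 ^ k) * KK k ^ (n + 1) := by
        rw [this]
        unfold BB
        ring
      rw [e1]
      have e2 : BB k * KK k ^ (n + 1) = (13 * (k + 1) + 2 ^ k) * KK k ^ (n + 1) +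
          (13 * (k + 1) + 2 ^ k) * KK k ^ (n + 1) := by
        unfold BB
        ring
      rw [e2]
      gcongr
      exact Nat.le_add_right _ _
  choose! F hF1 hF2 using hstep
  let s : (n : ℕ) → {g : (Fin k → ℕ) → ℕ // Good k (RR k n) (BB k * KK k ^ n) g} := fun n =>
    Nat.rec (motive := fun n => {g : (Fin k → ℕ) → ℕ // Good k (RR k n) (BB k * KK k ^ n) g})
      ⟨fun _ => 0, h0⟩ (fun n g => ⟨F n g.1, hF1 n g.1 g.2⟩) n
  refine ⟨fun n => (s n).1, fun n => ⟨(s n).2, ?_⟩⟩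
  exact hF2 n (s n).1 (s n).2

end Pool.Agent.U139.TB
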