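import Pool.Agent.U139.TB.Comb

set_option autoImplicit false

/-!
# The random choice of the digits of one generation
-/

namespace Pool.Agent.U139.TB

open Finset

/-- Markov's inequality for the number of the coordinates of a random word in given sets. -/
theorem markov {I ν : Type*} [Fintype I] [DecidableEq I] (N : Finset ν) (M L E A : ℕ) (hM : 0 < M)
    (B : ν → I → Finset (Fin M)) (hB : ∀ x ∈ N, ∑ c, (B x c).card ≤ M * L)
    (hN : N.card ≤ 2 ^ E) (hA : 2 * L + E ≤ A) :
    ∃ ξ : I → Fin M, ∀ x ∈ N, (univ.filter fun c => ξ c ∈ B x c).card ≤ A := by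
  classical
  by_contra hcon
  push Not at hcon
  have hM0 : (0 : ℝ) < M := by exact_mod_cast hM
  -- the exponential moment
  have hexp : ∀ x ∈ N, ∑ ξ : I → Fin M, (2 : ℝ) ^ (univ.filter fun c => ξ c ∈ B x c).card ≤
      (M : ℝ) ^ Fintype.card I * 4 ^ L := by
    intro x hx
    have h1 : ∀ ξ : I → Fin M, (2 : ℝ) ^ (univ.filter fun c => ξ c ∈ B x c).card =
        ∏ c, if ξ c ∈ B x c then (2 : ℝ) else 1 := by
      intro ξ
      rw [Finset.prod_ite]
      simp
    have h2 : ∑ ξ : I → Fin M, ∏ c, (if ξ c ∈ B x c then (2 : ℝ) else 1) =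
        ∏ c, ∑ e : Fin M, (if e ∈ B x c then (2 : ℝ) else 1) := by
      rw [Finset.prod_univ_sum]
      simp
    have h3 : ∀ c, ∑ e : Fin M, (if e ∈ B x c then (2 : ℝ) else 1) = M + (B x c).card := by
      intro c
      have : ∀ e : Fin M, (if e ∈ B x c then (2 : ℝ) else 1) = 1 + if e ∈ B x c then (1 : ℝ) else 0 := by
        intro e
        split_ifs <;> norm_num
      simp only [this, Finset.sum_add_distrib]
      simp
    simp only [h1]
    rw [h2]
    simp only [h3]
    calc ∏ c, ((M : ℝ) + (B x c).card) ≤ ∏ c, ((M : ℝ) * Real.exp ((B x c).card / M)) := by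
          apply Finset.prod_le_prod
          · intro c _
            positivity
          · intro c _
            have := Real.add_one_le_exp (((B x c).card : ℝ) / M)
            calc (M : ℝ) + (B x c).card = M * (((B x c).card : ℝ) / M + 1) := by
                  field_simp
                  ring
              _ ≤ _ := by gcongr
      _ = (M : ℝ) ^ Fintype.card I * Real.exp (∑ c, ((B x c).card : ℝ) / M) := by
          rw [Finset.prod_mul_distrib, Finset.prod_const, Real.exp_sum]
          rfl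
      _ ≤ (M : ℝ) ^ Fintype.card I * 4 ^ L := by
          gcongr
          have h4 : ∑ c, ((B x c).card : ℝ) / M ≤ L := by
            rw [← Finset.sum_div, div_le_iff₀ hM0]
            have := hB x hx
            have h5 : ((∑ c, (B x c).card : ℕ) : ℝ) ≤ ((M * L : ℕ) : ℝ) := by exact_mod_cast this
            push_cast at h5
            linarith
          calc Real.exp (∑ c, ((B x c).card : ℝ) / M) ≤ Real.exp L := Real.exp_le_exp.2 h4
            _ = Real.exp 1 ^ L := by rw [← Real.exp_nat_mul]; simp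
            _ ≤ 4 ^ L := by
                gcongr
                have := Real.exp_one_lt_d9
                linarith
  -- every word is bad for some `x`
  have hbad : (M : ℝ) ^ Fintype.card I * 2 ^ (A + 1) ≤
      ∑ x ∈ N, ∑ ξ : I → Fin M, (2 : ℝ) ^ (univ.filter fun c => ξ c ∈ B x c).card := by
    rw [Finset.sum_comm]
    have : (M : ℝ) ^ Fintype.card I * 2 ^ (A + 1) = ∑ _ξ : I → Fin M, (2 : ℝ) ^ (A + 1) := by
      rw [Finset.sum_const, nsmul_eq_mul, Finset.card_univ, Fintype.card_fun, Fintype.card_fin]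
      push_cast
      ring
    rw [this]
    apply Finset.sum_le_sum
    intro ξ _
    obtain ⟨x, hx, hx2⟩ := hcon ξ
    calc (2 : ℝ) ^ (A + 1) ≤ (2 : ℝ) ^ (univ.filter fun c => ξ c ∈ B x c).card := by
          gcongr
          · norm_num
          · omega
      _ ≤ _ := Finset.single_le_sum (f := fun x => (2 : ℝ) ^ (univ.filter fun c => ξ c ∈ B x c).card)
          (fun y _ => by positivity) hx
  have hle : (M : ℝ) ^ Fintype.card I * 2 ^ (A + 1) ≤ (M : ℝ) ^ Fintype.card I * (2 ^ E * 4 ^ L) := by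
    refine hbad.trans ?_
    calc ∑ x ∈ N, ∑ ξ : I → Fin M, (2 : ℝ) ^ (univ.filter fun c => ξ c ∈ B x c).card
        ≤ ∑ _x ∈ N, (M : ℝ) ^ Fintype.card I * 4 ^ L := Finset.sum_le_sum hexp
      _ = N.card * ((M : ℝ) ^ Fintype.card I * 4 ^ L) := by
          rw [Finset.sum_const, nsmul_eq_mul]
      _ ≤ 2 ^ E * ((M : ℝ) ^ Fintype.card I * 4 ^ L) := by
          gcongr
          exact_mod_cast hN
      _ = _ := by ring
  have hpos : (0 : ℝ) < (M : ℝ) ^ Fintype.card I := by positivity
  have h6 : (2 : ℝ) ^ (A + 1) ≤ 2 ^ E * 4 ^ L := le_of_mul_le_mul_left hle hpos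
  have h7 : (2 : ℝ) ^ E * 4 ^ L = 2 ^ (2 * L + E) := by
    rw [pow_add, pow_mul]
    norm_num
    ring
  rw [h7] at h6
  have h8 : (2 : ℝ) ^ (2 * L + E) < 2 ^ (A + 1) := by
    apply pow_lt_pow_right₀ (by norm_num)
    omega
  linarith

/-- the finite family of lines of one generation -/
noncomputable def Net (k R : ℕ) : Finset (Fin (k + 1) × (Fin (k + 1) → ℤ) × (Fin (k + 1) → ℤ)) :=
  univ ×ˢ (Fintype.piFinset fun _ => Icc (-(8 * R : ℤ)) (8 * R)) ×ˢ
    (Fintype.piFinset fun _ => Icc (-(8 * R : ℤ)) (8 * R))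

theorem card_Net (k R : ℕ) : (Net k R).card = (k + 1) * (16 * R + 1) ^ (2 * (k + 1)) := by
  simp only [Net, Finset.card_product, Finset.card_univ, Fintype.card_fin, Fintype.card_piFinset,
    Int.card_Icc, Finset.prod_const]
  have : (8 * (R : ℤ) + 1 - -(8 * R : ℤ)).toNat = 16 * R + 1 := by omega
  rw [this, ← pow_add, two_mul]

/-- rounding of the lines -/
theorem round {k R : ℕ} (hR : 2 ≤ R) (i : Fin (k + 1)) (a β : Fin (k + 1) → ℝ)
    (hβ : ∀ j, |β j| ≤ 1) (z₀ : Fin (k + 1) → ℕ) (hz₀ : ∀ j, z₀ j < R) (h0 : Hit i a β 6 z₀) :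
    ∃ ν ∈ Net k R, ν.1 = i ∧ (∀ j, |(ν.2.2 j : ℝ) / R| ≤ 1) ∧
      ∀ z : Fin (k + 1) → ℕ, (∀ j, z j < R) → Hit i a β 6 z →
        Hit i (fun j => (ν.2.1 j : ℝ)) (fun j => (ν.2.2 j : ℝ) / R) 8 z := by
  have hR0 : (0 : ℝ) < R := by
    have : 0 < R := by omega
    exact_mod_cast this
  have hR2 : (2 : ℝ) ≤ R := by exact_mod_cast hR
  have hbz : ∀ j, |β j * z₀ i| ≤ R := by
    intro j
    rw [abs_mul]
    have hz : (z₀ i : ℝ) ≤ R := by exact_mod_cast (hz₀ i).le
    calc |β j| * |(z₀ i : ℝ)| ≤ 1 * R := by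
          apply mul_le_mul (hβ j) _ (abs_nonneg _) zero_le_one
          rw [abs_of_nonneg (Nat.cast_nonneg _)]; exact hz
      _ = R := one_mul _
  refine ⟨(i, fun j => if j = i then 0 else ⌊a j⌋, fun j => ⌊β j * R⌋), ?_, rfl, ?_, ?_⟩
  · simp only [Net, Finset.mem_product, Finset.mem_univ, true_and, Fintype.mem_piFinset,
      Finset.mem_Icc]
    refine ⟨fun j => ?_, fun j => ?_⟩
    · by_cases hj : j = i
      · simp only [hj, if_true]
        constructor <;> omega
      · simp only [hj, if_false]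
        have h1 := abs_le.1 (h0 j hj)
        have h2 := abs_le.1 (hbz j)
        have h3 : (z₀ j : ℝ) ≤ R := by exact_mod_cast (hz₀ j).le
        have h4 : (0 : ℝ) ≤ z₀ j := Nat.cast_nonneg _
        constructor
        · apply Int.le_floor.2
          push_cast
          linarith [h1.2, h2.1, h2.2]
        · have : (⌊a j⌋ : ℝ) ≤ 8 * R := by
            have := Int.floor_le (a j)
            linarith [h1.1, h2.1, h2.2]
          exact_mod_cast this
    · have h1 := abs_le.1 (hβ j)
      constructor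
      · apply Int.le_floor.2
        push_cast
        nlinarith [h1.1]
      · have : (⌊β j * R⌋ : ℝ) ≤ 8 * R := by
          have := Int.floor_le (β j * R)
          nlinarith [h1.2]
        exact_mod_cast this
  · intro j
    have h1 := abs_le.1 (hβ j)
    simp only
    rw [abs_le]
    constructor
    · rw [le_div_iff₀ hR0]
      have : (-(R : ℤ)) ≤ ⌊β j * R⌋ := by
        apply Int.le_floor.2
        push_cast
        nlinarith [h1.1]
      have h2 : ((-(R : ℤ) : ℤ) : ℝ) ≤ (⌊β j * R⌋ : ℝ) := by exact_mod_cast this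
      push_cast at h2
      linarith
    · rw [div_le_iff₀ hR0]
      have := Int.floor_le (β j * R)
      nlinarith [h1.2]
  · intro z hz h j hj
    have h1 := h j hj
    simp only [hj, if_false]
    have hz1 : (z i : ℝ) ≤ R := by exact_mod_cast (hz i).le
    have hz0 : (0 : ℝ) ≤ z i := Nat.cast_nonneg _
    have hf1 := Int.floor_le (a j)
    have hf2 := Int.lt_floor_add_one (a j)
    have hg1 := Int.floor_le (β j * R)
    have hg2 := Int.lt_floor_add_one (β j * R)
    have e1 : (z j : ℝ) - (⌊a j⌋ : ℝ) - (⌊β j * R⌋ : ℝ) / R * z i =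
        ((z j : ℝ) - a j - β j * z i) + (a j - ⌊a j⌋) + (β j * R - ⌊β j * R⌋) * (z i / R) := by
      field_simp
      ring
    have h5 : 0 ≤ (z i : ℝ) / R := by positivity
    have h6 : (z i : ℝ) / R ≤ 1 := by rw [div_le_one hR0]; exact hz1
    have h7 : 0 ≤ (β j * R - ⌊β j * R⌋) * (z i / R) := mul_nonneg (by linarith) h5
    have h8 : (β j * R - ⌊β j * R⌋) * (z i / R) ≤ 1 := by
      calc (β j * R - ⌊β j * R⌋) * (z i / R) ≤ 1 * 1 :=
            mul_le_mul (by linarith) h6 h5 zero_le_one
        _ = 1 := one_mul _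
    rw [e1]
    have h9 := abs_le.1 h1
    rw [abs_le]
    constructor <;> linarith [h9.1, h9.2]

/-- **One generation.** -/
theorem step (k R M A E A' : ℕ) (hR : 1 ≤ R) (hM : 2 ≤ M) (g : (Fin k → ℕ) → ℕ)
    (hg : Good k R A g) (hE : (k + 1) * (16 * (R * M) + 1) ^ (2 * (k + 1)) ≤ 2 ^ E)
    (hA' : 2 * (17 ^ k * A) + E ≤ A') :
    ∃ g', Good k (R * M) A' g' ∧ ∀ c ∈ Cell k (R * M), g' c / M = g (par M c) := by
  classical
  have hM0 : 0 < M := by omega
  let I := {c : Fin k → ℕ // c ∈ Cell k (R * M)}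
  let N := (Net k (R * M)).filter fun ν => ∀ j, |(ν.2.2 j : ℝ) / (R * M : ℕ)| ≤ 1
  let B : (Fin (k + 1) × (Fin (k + 1) → ℤ) × (Fin (k + 1) → ℤ)) → I → Finset (Fin M) :=
    fun ν c => univ.filter fun e => Hit ν.1 (fun j => (ν.2.1 j : ℝ))
      (fun j => (ν.2.2 j : ℝ) / (R * M : ℕ)) 8 (Fin.cons (M * g (par M c.1) + e) c.1)
  have hpar : ∀ c ∈ Cell k (R * M), par M c ∈ Cell k R := by
    intro c hc
    rw [mem_Cell] at hc ⊢
    intro j
    exact (Nat.div_lt_iff_lt_mul hM0).2 (hc j)
  have hB : ∀ ν ∈ N, ∑ c, (B ν c).card ≤ M * (17 ^ k * A) := by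
    intro ν hν
    have hν2 : ∀ j, |(ν.2.2 j : ℝ) / (R * M : ℕ)| ≤ 1 := (Finset.mem_filter.1 hν).2
    -- the points of the next generation
    rw [← Finset.card_sigma]
    let F := HitSet R g ν.1 (fun j => (ν.2.1 j : ℝ) / M) (fun j => (ν.2.2 j : ℝ) / (R * M : ℕ)) 6
    have hF : F.card ≤ A := hg.2 _ _ _ hν2
    let P : Finset (Σ _ : I, Fin M) := (univ : Finset I).sigma (B ν)
    have hdec : ∀ p : (Σ _ : I, Fin M), (Fin.cons (M * g (par M p.1.1) + p.2) p.1.1 : Fin (k + 1) → ℕ) =
        fun j => M * (Fin.cons (g (par M p.1.1)) (par M p.1.1) : Fin (k + 1) → ℕ) j +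
          (Fin.cons (p.2 : ℕ) (fun j => p.1.1 j % M) : Fin (k + 1) → ℕ) j := by
      intro p
      funext j
      refine Fin.cases ?_ (fun j => ?_) j
      · simp
      · simp only [Fin.cons_succ, par]
        exact (Nat.div_add_mod _ _).symm
    have hsub : P.card ≤ ∑ c₀ ∈ F, (P.filter fun p => par M p.1.1 = c₀).card := by
      rw [← Finset.card_eq_sum_card_fiberwise (f := fun p : (Σ _ : I, Fin M) => par M p.1.1)]
      intro p hp
      have hp2 : p.2 ∈ B ν p.1 := (Finset.mem_sigma.1 (Finset.mem_coe.1 hp)).2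
      have hh := (Finset.mem_filter.1 hp2).2
      rw [hdec p] at hh
      refine mem_HitSet.2 ⟨hpar _ p.1.2, ?_⟩
      apply hit_par hM hν2 _ hh
      intro j
      refine Fin.cases ?_ (fun j => ?_) j
      · simp
      · simpa using Nat.mod_lt _ hM0
    have hfib : ∀ c₀ ∈ F, (P.filter fun p => par M p.1.1 = c₀).card ≤ M * 17 ^ k := by
      intro c₀ _
      let S : Finset (Fin (k + 1) → ℕ) := (P.filter fun p => par M p.1.1 = c₀).image fun p =>
        (Fin.cons (p.2 : ℕ) (fun j => p.1.1 j % M) : Fin (k + 1) → ℕ)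
      have hS : (P.filter fun p => par M p.1.1 = c₀).card = S.card := by
        symm
        apply Finset.card_image_of_injOn
        intro p hp q hq h
        have hp1 : par M p.1.1 = c₀ := (Finset.mem_filter.1 (Finset.mem_coe.1 hp)).2
        have hq1 : par M q.1.1 = c₀ := (Finset.mem_filter.1 (Finset.mem_coe.1 hq)).2
        simp only at h
        have h0 : (p.2 : ℕ) = q.2 := by
          have := congrFun h 0
          simpa using this
        have hs : ∀ j, p.1.1 j % M = q.1.1 j % M := by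
          intro j
          have := congrFun h j.succ
          simpa using this
        have hc : p.1.1 = q.1.1 := by
          funext j
          have h1 : p.1.1 j / M = q.1.1 j / M := by
            have := congrFun (hp1.trans hq1.symm) j
            simpa [par] using this
          rw [← Nat.div_add_mod (p.1.1 j) M, ← Nat.div_add_mod (q.1.1 j) M, h1, hs j]
        obtain ⟨⟨c, hc'⟩, e⟩ := p
        obtain ⟨⟨d, hd'⟩, f⟩ := q
        simp only at hc h0
        subst hc
        have : e = f := Fin.ext h0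
        subst this
        rfl
      rw [hS]
      apply card_children ν.1 (fun j => (ν.2.1 j : ℝ)) (fun j => (ν.2.2 j : ℝ) / (R * M : ℕ)) M
        (Fin.cons (g c₀) c₀) S
      intro e he
      obtain ⟨p, hp, rfl⟩ := Finset.mem_image.1 he
      obtain ⟨hpP, hp1⟩ := Finset.mem_filter.1 hp
      have hp2 : p.2 ∈ B ν p.1 := (Finset.mem_sigma.1 hpP).2
      have hh := (Finset.mem_filter.1 hp2).2
      rw [hdec p, hp1] at hh
      refine ⟨?_, hh⟩
      intro j
      refine Fin.cases ?_ (fun j => ?_) j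
      · simp
      · simpa using Nat.mod_lt _ hM0
    calc P.card ≤ ∑ c₀ ∈ F, (P.filter fun p => par M p.1.1 = c₀).card := hsub
      _ ≤ ∑ _c₀ ∈ F, M * 17 ^ k := Finset.sum_le_sum hfib
      _ = F.card * (M * 17 ^ k) := by rw [Finset.sum_const, smul_eq_mul]
      _ ≤ A * (M * 17 ^ k) := by gcongr
      _ = M * (17 ^ k * A) := by ring
  have hNc : N.card ≤ 2 ^ E := by
    refine (Finset.card_filter_le _ _).trans ?_
    rw [card_Net]
    exact hE
  obtain ⟨ξ, hξ⟩ := markov N M (17 ^ k * A) E A' hM0 B hB hNc hA'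
  refine ⟨fun c => if h : c ∈ Cell k (R * M) then M * g (par M c) + ξ ⟨c, h⟩ else 0, ⟨?_, ?_⟩, ?_⟩
  · intro c hc
    simp only [hc, dif_pos]
    have h1 := hg.1 _ (hpar c hc)
    have h2 := (ξ ⟨c, hc⟩).2
    calc M * g (par M c) + ξ ⟨c, hc⟩ < M * g (par M c) + M := by omega
      _ = M * (g (par M c) + 1) := by ring
      _ ≤ M * R := Nat.mul_le_mul_left _ h1
      _ = R * M := mul_comm _ _
  · intro i a β hβ
    rcases Finset.eq_empty_or_nonempty (HitSet (R * M) (fun c => if h : c ∈ Cell k (R * M) then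
      M * g (par M c) + ξ ⟨c, h⟩ else 0) i a β 6) with h0 | ⟨c₁, hc₁⟩
    · rw [h0]; simp
    · have hlt : ∀ c ∈ Cell k (R * M), ∀ j, (Fin.cons (if h : c ∈ Cell k (R * M) then
          M * g (par M c) + (ξ ⟨c, h⟩ : ℕ) else 0) c : Fin (k + 1) → ℕ) j < R * M := by
        intro c hc j
        refine Fin.cases ?_ (fun j => ?_) j
        · simp only [Fin.cons_zero, hc, dif_pos]
          have h1 := hg.1 _ (hpar c hc)
          have h2 := (ξ ⟨c, hc⟩).2
          calc M * g (par M c) + ξ ⟨c, hc⟩ < M * g (par M c) + M := by omega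
            _ = M * (g (par M c) + 1) := by ring
            _ ≤ M * R := Nat.mul_le_mul_left _ h1
            _ = R * M := mul_comm _ _
        · simp only [Fin.cons_succ]
          exact (mem_Cell c).1 hc j
      have hRM : 2 ≤ R * M := by nlinarith
      obtain ⟨hc1, hc2⟩ := mem_HitSet.1 hc₁
      obtain ⟨ν, hν, hν1, hν2, hν3⟩ := round hRM i a β hβ _ (hlt c₁ hc1) hc2
      have hνN : ν ∈ N := Finset.mem_filter.2 ⟨hν, hν2⟩
      refine le_trans ?_ (hξ ν hνN)
      apply Finset.card_le_card_of_injOn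
        (fun c => if h : c ∈ Cell k (R * M) then (⟨c, h⟩ : I) else ⟨c₁, hc1⟩)
      · intro c hc
        obtain ⟨hc3, hc4⟩ := mem_HitSet.1 (Finset.mem_coe.1 hc)
        simp only [hc3, dif_pos, Finset.coe_filter, Finset.mem_univ, true_and, Set.mem_ofPred_eq, B,
          Finset.mem_filter]
        have h5 := hν3 _ (hlt c hc3) hc4
        simp only [hc3, dif_pos] at h5
        rw [hν1]
        exact h5
      · intro c hc d hd h
        obtain ⟨hc3, -⟩ := mem_HitSet.1 (Finset.mem_coe.1 hc)
        obtain ⟨hd3, -⟩ := mem_HitSet.1 (Finset.mem_coe.1 hd)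
        simp only [hc3, hd3, dif_pos] at h
        exact congrArg Subtype.val h
  · intro c hc
    simp only [hc, dif_pos]
    rw [Nat.mul_add_div hM0, Nat.div_eq_of_lt (ξ ⟨c, hc⟩).2, add_zero]

end Pool.Agent.U139.TB
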