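import Pool.Agent.U139.TB.Real

set_option autoImplicit false

/-!
# The tubes
-/

namespace Pool.Agent.U139.TB

open Finset MeasureTheory MeasureTheory.Measure Filter Topology
open scoped ENNReal NNReal

variable {k : ℕ} {g : ℕ → (Fin k → ℕ) → ℕ}

/-- the tube of width `w` around the line through `p` in the direction `v` -/
def Tube (p v : EuclideanSpace ℝ (Fin (k + 1))) (w : ℝ) : Set (EuclideanSpace ℝ (Fin (k + 1))) :=
  {x | Metric.infDist x (Set.range fun t : ℝ => p + t • v) ≤ w / 2}

theorem abs_coord_le (x y : EuclideanSpace ℝ (Fin (k + 1))) (j : Fin (k + 1)) :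
    |x j - y j| ≤ dist x y := by
  rw [EuclideanSpace.dist_eq]
  apply Real.le_sqrt_of_sq_le
  have := Finset.single_le_sum (f := fun i => dist (x i) (y i) ^ 2) (fun i _ => by positivity)
    (Finset.mem_univ j)
  simpa [Real.dist_eq] using this

/-- the tube in coordinates -/
theorem tube_coord (p v : EuclideanSpace ℝ (Fin (k + 1))) (w : ℝ) (hv : v ≠ 0) (hw : 0 < w) :
    ∃ (i : Fin (k + 1)) (α β : Fin (k + 1) → ℝ), (∀ j, |β j| ≤ 1) ∧
      ∀ x ∈ Tube p v w, ∀ j, |x j - α j - β j * x i| ≤ 2 * w := by
  obtain ⟨i, hi⟩ := Finite.exists_max fun j => |v j|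
  have hvi : v i ≠ 0 := by
    intro h0
    apply hv
    ext j
    have := hi j
    rw [h0, abs_zero] at this
    simpa using le_antisymm this (abs_nonneg _)
  have hβ : ∀ j, |v j / v i| ≤ 1 := by
    intro j
    rw [abs_div, div_le_one (abs_pos.2 hvi)]
    exact hi j
  refine ⟨i, fun j => p j - v j / v i * p i, fun j => v j / v i, hβ, ?_⟩
  intro x hx j
  have h1 : Metric.infDist x (Set.range fun t : ℝ => p + t • v) < w := by
    have : Metric.infDist x (Set.range fun t : ℝ => p + t • v) ≤ w / 2 := hx
    linarith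
  obtain ⟨_, ⟨t, rfl⟩, ht⟩ := (Metric.infDist_lt_iff (Set.range_nonempty _)).1 h1
  have h2 := abs_coord_le x (p + t • v) j
  have h3 := abs_coord_le x (p + t • v) i
  simp only [PiLp.add_apply, PiLp.smul_apply, smul_eq_mul] at h2 h3
  have e : x j - (p j - v j / v i * p i) - v j / v i * x i =
      (x j - (p j + t * v j)) - v j / v i * (x i - (p i + t * v i)) := by
    field_simp
    ring
  rw [e]
  calc |(x j - (p j + t * v j)) - v j / v i * (x i - (p i + t * v i))|
      ≤ |x j - (p j + t * v j)| + |v j / v i * (x i - (p i + t * v i))| := abs_sub _ _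
    _ ≤ w + 1 * w := by
        rw [abs_mul]
        gcongr
        · linarith
        · exact hβ j
        · linarith
    _ = 2 * w := by ring

/-- **The number of the cells near a tube.** -/
theorem tube_cells (hg : Sys k g) (p v : EuclideanSpace ℝ (Fin (k + 1))) (w : ℝ) (hv : v ≠ 0)
    (n : ℕ) (hw : 1 ≤ w * RR k n) : ∃ F : Finset (Fin k → ℕ),
      (F.card : ℝ) ≤ (11 * (w * RR k n)) ^ k * (BB k * KK k ^ n : ℕ) ∧
      ∀ x ∈ GG g ∩ Tube p v w, cell (RR k n) (tl x) ∈ F := by
  classical
  have hR := RR_pos k n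
  have hw0 : 0 < w := by
    by_contra h
    push Not at h
    nlinarith
  obtain ⟨i, α, β, hβ, hT⟩ := tube_coord p v w hv hw0
  set W : ℕ := ⌈4 * (w * RR k n)⌉₊ with hW
  let t : Fin (k + 1) → Finset ℤ := fun j => if j = i then {0} else Finset.Icc (-(W : ℤ)) W
  have hcard : (Fintype.piFinset t).card = (2 * W + 1) ^ k := by
    rw [Fintype.card_piFinset, Fin.prod_univ_succAbove _ i]
    have h1 : (t i).card = 1 := by simp [t]
    have h2 : ∀ j : Fin k, (t (i.succAbove j)).card = 2 * W + 1 := by
      intro j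
      simp only [t, Fin.succAbove_ne i j, if_false, Int.card_Icc]
      omega
    rw [h1]
    simp [h2]
  refine ⟨(Fintype.piFinset t).biUnion fun m =>
    HitSet (RR k n) (g n) i (fun j => RR k n * α j + m j) β 6, ?_, ?_⟩
  · have h1 : ((Fintype.piFinset t).biUnion fun m =>
        HitSet (RR k n) (g n) i (fun j => RR k n * α j + m j) β 6).card ≤
        (2 * W + 1) ^ k * (BB k * KK k ^ n) := by
      calc _ ≤ ∑ m ∈ Fintype.piFinset t,
            (HitSet (RR k n) (g n) i (fun j => RR k n * α j + m j) β 6).card :=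
              Finset.card_biUnion_le
        _ ≤ ∑ _m ∈ Fintype.piFinset t, BB k * KK k ^ n :=
            Finset.sum_le_sum fun m _ => (hg.good n).2 _ _ _ hβ
        _ = _ := by rw [Finset.sum_const, smul_eq_mul, hcard]
    have h2 : (2 * W + 1 : ℝ) ≤ 11 * (w * RR k n) := by
      have := Nat.ceil_lt_add_one (show (0 : ℝ) ≤ 4 * (w * RR k n) by positivity)
      rw [← hW] at this
      linarith
    calc (((Fintype.piFinset t).biUnion fun m =>
        HitSet (RR k n) (g n) i (fun j => RR k n * α j + m j) β 6).card : ℝ)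
        ≤ (((2 * W + 1) ^ k * (BB k * KK k ^ n) : ℕ) : ℝ) := by exact_mod_cast h1
      _ = (2 * W + 1 : ℝ) ^ k * (BB k * KK k ^ n : ℕ) := by push_cast; ring
      _ ≤ _ := by gcongr
  · rintro x ⟨hx, hxT⟩
    have hQ := mem_Cube hg hx n
    have hmem : cell (RR k n) (tl x) ∈ Cell k (RR k n) :=
      cell_mem (by have := RR_ge k n; omega) hx.1
    set z : Fin (k + 1) → ℕ := Fin.cons (g n (cell (RR k n) (tl x))) (cell (RR k n) (tl x)) with hz
    rw [Finset.mem_biUnion]
    have hkey : ∀ j, |(z j : ℝ) - RR k n * α j - β j * z i| ≤ 4 * (w * RR k n) := by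
      intro j
      have h1 := hT x hxT j
      have hj := hQ j
      have hi := hQ i
      have e : (z j : ℝ) - RR k n * α j - β j * z i =
          RR k n * (x j - α j - β j * x i) - (RR k n * x j - z j) + β j * (RR k n * x i - z i) := by
        ring
      rw [e]
      have h2 : |RR k n * (x j - α j - β j * x i)| ≤ RR k n * (2 * w) := by
        rw [abs_mul, abs_of_pos hR]
        gcongr
      have h3 : |RR k n * x j - z j| ≤ 1 := by rw [abs_le]; constructor <;> linarith [hj.1, hj.2]
      have h4 : |β j * (RR k n * x i - z i)| ≤ 1 := by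
        rw [abs_mul]
        have : |RR k n * x i - (z i : ℝ)| ≤ 1 := by rw [abs_le]; constructor <;> linarith [hi.1, hi.2]
        calc |β j| * |RR k n * x i - (z i : ℝ)| ≤ 1 * 1 :=
              mul_le_mul (hβ j) this (abs_nonneg _) zero_le_one
          _ = 1 := one_mul _
      calc |RR k n * (x j - α j - β j * x i) - (RR k n * x j - z j) + β j * (RR k n * x i - z i)|
          ≤ |RR k n * (x j - α j - β j * x i) - (RR k n * x j - z j)| +
            |β j * (RR k n * x i - z i)| := abs_add_le _ _
        _ ≤ (|RR k n * (x j - α j - β j * x i)| + |RR k n * x j - z j|) +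
            |β j * (RR k n * x i - z i)| := by gcongr; exact abs_sub _ _
        _ ≤ (RR k n * (2 * w) + 1) + 1 := by gcongr
        _ ≤ 4 * (w * RR k n) := by linarith
    refine ⟨fun j => if j = i then 0 else ⌊(z j : ℝ) - RR k n * α j - β j * z i⌋, ?_, ?_⟩
    · rw [Fintype.mem_piFinset]
      intro j
      by_cases hj : j = i
      · simp [t, hj]
      · simp only [t, hj, if_false, Finset.mem_Icc]
        have h1 := abs_le.1 (hkey j)
        have h2 : 4 * (w * RR k n) ≤ W := Nat.le_ceil _
        constructor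
        · apply Int.le_floor.2
          push_cast
          linarith [h1.1]
        · have : (⌊(z j : ℝ) - RR k n * α j - β j * z i⌋ : ℝ) ≤ W := by
            have := Int.floor_le ((z j : ℝ) - RR k n * α j - β j * z i)
            linarith [h1.2]
          exact_mod_cast this
    · refine mem_HitSet.2 ⟨hmem, ?_⟩
      rw [← hz]
      intro j hj
      simp only [hj, if_false]
      have h1 := Int.floor_le ((z j : ℝ) - RR k n * α j - β j * z i)
      have h2 := Int.lt_floor_add_one ((z j : ℝ) - RR k n * α j - β j * z i)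
      rw [abs_le]
      constructor <;> linarith

/-- **The tube bound.** -/
theorem tube_bound (hg : Sys k g) (p v : EuclideanSpace ℝ (Fin (k + 1))) (w : ℝ) (hv : v ≠ 0)
    (hw0 : 0 < w) (hw : w ≤ 1 / 2) : μH[(k : ℝ)] (GG g ∩ Tube p v w) ≤
      ENNReal.ofReal ((11 * (k + 1)) ^ k * BB k * KK k / Real.log 2 * w ^ k * Real.log (1 / w)) := by
  classical
  have hlog2 : 0 < Real.log 2 := Real.log_pos (by norm_num)
  -- the generation
  have hex : ∃ n, 1 ≤ w * RR k n := by
    obtain ⟨n, hn⟩ := exists_nat_ge (1 / w)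
    refine ⟨n, ?_⟩
    have h1 : (n : ℝ) ≤ RR k n := by
      have : n ≤ RR k n := by
        unfold RR
        calc n ≤ KK k ^ n := (Nat.lt_pow_self (by have := KK_ge k; omega)).le
          _ ≤ 2 ^ (KK k ^ n) := Nat.lt_two_pow_self.le
      exact_mod_cast this
    calc (1 : ℝ) = w * (1 / w) := by field_simp
      _ ≤ w * RR k n := by gcongr; linarith
  set n := Nat.find hex with hn
  have hn1 : 1 ≤ w * RR k n := Nat.find_spec hex
  have hK : (KK k : ℝ) ^ n ≤ KK k / Real.log 2 * Real.log (1 / w) := by
    have hKpos : (1 : ℝ) ≤ KK k := by exact_mod_cast (by have := KK_ge k; omega : 1 ≤ KK k)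
    rcases Nat.eq_zero_or_pos n with h0 | hpos
    · rw [h0, pow_zero]
      have h1 : Real.log 2 ≤ Real.log (1 / w) := by
        apply Real.log_le_log (by norm_num)
        rw [le_div_iff₀ hw0]
        linarith
      calc (1 : ℝ) = 1 * (Real.log 2 / Real.log 2) := by field_simp
        _ ≤ KK k * (Real.log (1 / w) / Real.log 2) := by gcongr
        _ = _ := by ring
    · obtain ⟨m, hm⟩ : ∃ m, n = m + 1 := ⟨n - 1, by omega⟩
      have h1 : ¬ 1 ≤ w * RR k m := Nat.find_min hex (by omega)
      push Not at h1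
      have h2 : (RR k m : ℝ) < 1 / w := by
        rw [lt_div_iff₀ hw0]
        linarith
      have h3 : Real.log (RR k m) < Real.log (1 / w) := Real.log_lt_log (RR_pos k m) h2
      have h4 : Real.log (RR k m) = KK k ^ m * Real.log 2 := by
        unfold RR
        push_cast
        rw [Real.log_pow]
        push_cast
        ring
      rw [h4] at h3
      rw [hm, pow_succ]
      calc (KK k : ℝ) ^ m * KK k = KK k / Real.log 2 * (KK k ^ m * Real.log 2) := by
            field_simp
        _ ≤ KK k / Real.log 2 * Real.log (1 / w) := by gcongr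
  obtain ⟨F, hF1, hF2⟩ := tube_cells hg p v w hv n hn1
  refine (measure_le hg n F _ Set.inter_subset_left hF2).trans ?_
  apply ENNReal.ofReal_le_ofReal
  have hR := RR_pos k n
  calc (F.card : ℝ) * ((k + 1) / RR k n) ^ k
      ≤ ((11 * (w * RR k n)) ^ k * (BB k * KK k ^ n : ℕ)) * ((k + 1) / RR k n) ^ k := by gcongr
    _ = (11 * (k + 1)) ^ k * BB k * w ^ k * (KK k : ℝ) ^ n := by
        push_cast
        rw [div_pow, mul_pow, mul_pow, mul_pow]
        field_simp
    _ ≤ (11 * (k + 1)) ^ k * BB k * w ^ k * (KK k / Real.log 2 * Real.log (1 / w)) := by gcongr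
    _ = _ := by ring

theorem measure_lt_top (hg : Sys k g) :
    μH[(k : ℝ)] (GG g) ≤ ENNReal.ofReal ((2 : ℝ) ^ k * ((k + 1) / 2) ^ k) := by
  have h := measure_le hg 0 (Cell k (RR k 0)) (GG g) subset_rfl fun x hx =>
    cell_mem (by have := RR_ge k 0; omega) hx.1
  refine h.trans (le_of_eq ?_)
  rw [card_Cell]
  simp [RR]

theorem bounded_GG (hg : Sys k g) : Bornology.IsBounded (GG g) := by
  have h : GG g ⊆ Metric.closedBall 0 (k + 1) := by
    intro x hx
    have h1 := mem_Cube hg hx 0
    rw [Metric.mem_closedBall, dist_zero_right, EuclideanSpace.norm_eq]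
    have hx1 : ∀ j, ‖x j‖ ≤ 1 := by
      intro j
      have hR := RR_pos k 0
      have hc : ∀ j, (Fin.cons (g 0 (cell (RR k 0) (tl x))) (cell (RR k 0) (tl x)) :
          Fin (k + 1) → ℕ) j + 1 ≤ RR k 0 := by
        have hmem : cell (RR k 0) (tl x) ∈ Cell k (RR k 0) :=
          cell_mem (by have := RR_ge k 0; omega) hx.1
        intro j
        refine Fin.cases ?_ (fun j => ?_) j
        · exact (hg.good 0).1 _ hmem
        · exact (mem_Cell _).1 hmem j
      have h2 := h1 j
      have h3 : (((Fin.cons (g 0 (cell (RR k 0) (tl x))) (cell (RR k 0) (tl x)) :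
          Fin (k + 1) → ℕ) j : ℕ) : ℝ) + 1 ≤ RR k 0 := by exact_mod_cast hc j
      have h4 : (0 : ℝ) ≤ RR k 0 * x j := le_trans (Nat.cast_nonneg _) h2.1
      have h5 : RR k 0 * x j ≤ RR k 0 * 1 := by linarith [h2.2]
      rw [Real.norm_eq_abs, abs_le]
      have h6 : 0 ≤ x j := nonneg_of_mul_nonneg_right h4 hR
      have h7 : x j ≤ 1 := le_of_mul_le_mul_left h5 hR
      constructor <;> linarith
    calc √(∑ i, ‖x i‖ ^ 2) ≤ √(∑ _i : Fin (k + 1), (1 : ℝ) ^ 2) := by
          apply Real.sqrt_le_sqrt
          apply Finset.sum_le_sum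
          intro i _
          have := hx1 i
          gcongr
      _ = √(k + 1) := by
          rw [Finset.sum_const, nsmul_eq_mul, Finset.card_univ, Fintype.card_fin]
          push_cast
          congr 1
          ring
      _ ≤ √((k + 1) ^ 2) := by
          apply Real.sqrt_le_sqrt
          have : (0 : ℝ) ≤ k := Nat.cast_nonneg _
          nlinarith
      _ = k + 1 := Real.sqrt_sq (by positivity)
  exact Metric.isBounded_closedBall.subset h

end Pool.Agent.U139.TB
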